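import Mathlib

/-!
Generating tree for permutations avoiding the pattern 24135, by insertion of a new maximum.
-/

namespace Pool.Agent.H49.EW

open Equiv

variable {n : ℕ}

/-- some entry before the cut `i` exceeds some entry in positions `[i,k)` -/
def V (π : Perm (Fin n)) (i k : ℕ) : Prop :=
  ∃ z x : Fin n, z.val < i ∧ i ≤ x.val ∧ x.val < k ∧ π x < π z

/-- an occurrence of `2|13` with cut `i`, inside the prefix of length `k` -/
def T (π : Perm (Fin n)) (i k : ℕ) : Prop :=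
  ∃ z x y : Fin n, z.val < i ∧ i ≤ x.val ∧ x < y ∧ y.val < k ∧ π x < π z ∧ π z < π y

/-- an occurrence of `2413` inside the prefix of length `k` -/
def P (π : Perm (Fin n)) (k : ℕ) : Prop :=
  ∃ a b c d : Fin n, a < b ∧ b < c ∧ c < d ∧ d.val < k ∧ π c < π a ∧ π a < π d ∧ π d < π b

/-- an occurrence of `24135` -/
def Q (π : Perm (Fin n)) : Prop :=
  ∃ a b c d e : Fin n, a < b ∧ b < c ∧ c < d ∧ d < e ∧
    π c < π a ∧ π a < π d ∧ π d < π b ∧ π b < π e

/-- insert a new maximum at position `s` -/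
def ins (s : Fin (n + 1)) (π : Perm (Fin n)) : Perm (Fin (n + 1)) :=
  (finSuccEquiv' s).trans ((Equiv.optionCongr π).trans (finSuccEquiv' (Fin.last n)).symm)

theorem ins_self (s : Fin (n + 1)) (π : Perm (Fin n)) : ins s π s = Fin.last n := by
  simp [ins]

theorem ins_succAbove (s : Fin (n + 1)) (π : Perm (Fin n)) (j : Fin n) :
    ins s π (s.succAbove j) = (π j).castSucc := by
  simp [ins]

/-- old cut corresponding to the new cut `k` -/
def dl (s k : ℕ) : ℕ := if k ≤ s then k else k - 1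

theorem succAbove_val (s : Fin (n + 1)) (j : Fin n) :
    (s.succAbove j).val = if j.val < s.val then j.val else j.val + 1 := by
  unfold Fin.succAbove
  split_ifs with h1 h2 h2
  · rfl
  · exact absurd h1 (by simpa [Fin.lt_def] using h2)
  · exact absurd h2 (by simpa [Fin.lt_def] using h1)
  · rfl

theorem sA_lt (s : Fin (n + 1)) (j : Fin n) (k : ℕ) :
    (s.succAbove j).val < k ↔ j.val < dl s.val k := by
  rw [succAbove_val]; unfold dl; split_ifs <;> omega

theorem le_sA (s : Fin (n + 1)) (j : Fin n) (k : ℕ) :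
    k ≤ (s.succAbove j).val ↔ dl s.val k ≤ j.val := by
  rw [succAbove_val]; unfold dl; split_ifs <;> omega

theorem sA_lt_s (s : Fin (n + 1)) (j : Fin n) : s.succAbove j < s ↔ j.val < s.val := by
  rw [Fin.lt_def, succAbove_val]; split_ifs <;> omega

theorem s_lt_sA (s : Fin (n + 1)) (j : Fin n) : s < s.succAbove j ↔ s.val ≤ j.val := by
  rw [Fin.lt_def, succAbove_val]; split_ifs <;> omega

theorem sA_lt_sA (s : Fin (n + 1)) (j j' : Fin n) : s.succAbove j < s.succAbove j' ↔ j < j' := by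
  exact (Fin.strictMono_succAbove s).lt_iff_lt

theorem ins_lt_ins (s : Fin (n + 1)) (π : Perm (Fin n)) (j j' : Fin n) :
    ins s π (s.succAbove j) < ins s π (s.succAbove j') ↔ π j < π j' := by
  rw [ins_succAbove, ins_succAbove, Fin.castSucc_lt_castSucc_iff]

theorem ins_lt_max (s : Fin (n + 1)) (π : Perm (Fin n)) (j : Fin n) :
    ins s π (s.succAbove j) < ins s π s := by
  rw [ins_succAbove, ins_self]; exact Fin.castSucc_lt_last _

theorem not_max_lt (s : Fin (n + 1)) (π : Perm (Fin n)) (x : Fin (n + 1)) :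
    ¬ ins s π s < ins s π x := by
  rw [ins_self]; exact not_lt.2 (Fin.le_last _)

theorem exists_sA {s x : Fin (n + 1)} (h : x ≠ s) : ∃ j : Fin n, x = s.succAbove j := by
  obtain ⟨j, hj⟩ := Fin.exists_succAbove_eq h
  exact ⟨j, hj.symm⟩

theorem V_ins (s : Fin (n + 1)) (π : Perm (Fin n)) (i k : ℕ) (hk : k ≤ n + 1) :
    V (ins s π) i k ↔ V π (dl s i) (dl s k) ∨ (s.val < i ∧ i < k) := by
  constructor
  · rintro ⟨z, x, hz, hx, hxk, hlt⟩
    have hxs : x ≠ s := by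
      rintro rfl; exact not_max_lt _ _ _ hlt
    obtain ⟨x', rfl⟩ := exists_sA hxs
    by_cases hzs : z = s
    · subst hzs
      right
      exact ⟨hz, lt_of_le_of_lt hx hxk⟩
    · obtain ⟨z', rfl⟩ := exists_sA hzs
      left
      rw [ins_lt_ins] at hlt
      exact ⟨z', x', (sA_lt _ _ _).1 hz, (le_sA _ _ _).1 hx, (sA_lt _ _ _).1 hxk, hlt⟩
  · rintro (⟨z, x, hz, hx, hxk, hlt⟩ | ⟨hs, hik⟩)
    · exact ⟨s.succAbove z, s.succAbove x, (sA_lt _ _ _).2 hz, (le_sA _ _ _).2 hx,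
        (sA_lt _ _ _).2 hxk, (ins_lt_ins _ _ _ _).2 hlt⟩
    · have hne : (⟨i, by omega⟩ : Fin (n + 1)) ≠ s := by
        intro h
        rw [Fin.ext_iff] at h
        simp only at h
        omega
      obtain ⟨j, hj⟩ := exists_sA hne
      refine ⟨s, ⟨i, by omega⟩, hs, le_refl _, hik, ?_⟩
      rw [hj]
      exact ins_lt_max _ _ _

theorem T_ins (s : Fin (n + 1)) (π : Perm (Fin n)) (i k : ℕ) :
    T (ins s π) i k ↔ T π (dl s i) (dl s k) ∨ (s.val < k ∧ V π (dl s i) s.val) := by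
  constructor
  · rintro ⟨z, x, y, hz, hx, hxy, hyk, h1, h2⟩
    have hxs : x ≠ s := by
      rintro rfl; exact not_max_lt _ _ _ h1
    have hzs : z ≠ s := by
      rintro rfl; exact not_max_lt _ _ _ h2
    obtain ⟨x', rfl⟩ := exists_sA hxs
    obtain ⟨z', rfl⟩ := exists_sA hzs
    by_cases hys : y = s
    · subst hys
      right
      refine ⟨hyk, z', x', (sA_lt _ _ _).1 hz, (le_sA _ _ _).1 hx, (sA_lt_s _ _).1 hxy,
        (ins_lt_ins _ _ _ _).1 h1⟩
    · obtain ⟨y', rfl⟩ := exists_sA hys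
      left
      exact ⟨z', x', y', (sA_lt _ _ _).1 hz, (le_sA _ _ _).1 hx, (sA_lt_sA _ _ _).1 hxy,
        (sA_lt _ _ _).1 hyk, (ins_lt_ins _ _ _ _).1 h1, (ins_lt_ins _ _ _ _).1 h2⟩
  · rintro (⟨z, x, y, hz, hx, hxy, hyk, h1, h2⟩ | ⟨hs, z, x, hz, hx, hxs, h1⟩)
    · exact ⟨s.succAbove z, s.succAbove x, s.succAbove y, (sA_lt _ _ _).2 hz, (le_sA _ _ _).2 hx,
        (sA_lt_sA _ _ _).2 hxy, (sA_lt _ _ _).2 hyk, (ins_lt_ins _ _ _ _).2 h1,
        (ins_lt_ins _ _ _ _).2 h2⟩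
    · exact ⟨s.succAbove z, s.succAbove x, s, (sA_lt _ _ _).2 hz, (le_sA _ _ _).2 hx,
        (sA_lt_s _ _).2 hxs, hs, (ins_lt_ins _ _ _ _).2 h1, ins_lt_max _ _ _⟩

theorem P_ins (s : Fin (n + 1)) (π : Perm (Fin n)) (k : ℕ) :
    P (ins s π) k ↔ P π (dl s k) ∨ T π s.val (dl s k) := by
  constructor
  · rintro ⟨a, b, c, d, hab, hbc, hcd, hdk, h1, h2, h3⟩
    have hcs : c ≠ s := by
      rintro rfl; exact not_max_lt _ _ _ h1
    have has : a ≠ s := by
      rintro rfl; exact not_max_lt _ _ _ h2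
    have hds : d ≠ s := by
      rintro rfl; exact not_max_lt _ _ _ h3
    obtain ⟨a', rfl⟩ := exists_sA has
    obtain ⟨c', rfl⟩ := exists_sA hcs
    obtain ⟨d', rfl⟩ := exists_sA hds
    by_cases hbs : b = s
    · subst hbs
      right
      exact ⟨a', c', d', (sA_lt_s _ _).1 hab, (s_lt_sA _ _).1 hbc, (sA_lt_sA _ _ _).1 hcd,
        (sA_lt _ _ _).1 hdk, (ins_lt_ins _ _ _ _).1 h1, (ins_lt_ins _ _ _ _).1 h2⟩
    · obtain ⟨b', rfl⟩ := exists_sA hbs
      left
      exact ⟨a', b', c', d', (sA_lt_sA _ _ _).1 hab, (sA_lt_sA _ _ _).1 hbc,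
        (sA_lt_sA _ _ _).1 hcd, (sA_lt _ _ _).1 hdk, (ins_lt_ins _ _ _ _).1 h1,
        (ins_lt_ins _ _ _ _).1 h2, (ins_lt_ins _ _ _ _).1 h3⟩
  · rintro (⟨a, b, c, d, hab, hbc, hcd, hdk, h1, h2, h3⟩ | ⟨z, x, y, hz, hx, hxy, hyk, h1, h2⟩)
    · exact ⟨s.succAbove a, s.succAbove b, s.succAbove c, s.succAbove d, (sA_lt_sA _ _ _).2 hab,
        (sA_lt_sA _ _ _).2 hbc, (sA_lt_sA _ _ _).2 hcd, (sA_lt _ _ _).2 hdk,
        (ins_lt_ins _ _ _ _).2 h1, (ins_lt_ins _ _ _ _).2 h2, (ins_lt_ins _ _ _ _).2 h3⟩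
    · exact ⟨s.succAbove z, s, s.succAbove x, s.succAbove y, (sA_lt_s _ _).2 hz,
        (s_lt_sA _ _).2 hx, (sA_lt_sA _ _ _).2 hxy, (sA_lt _ _ _).2 hyk,
        (ins_lt_ins _ _ _ _).2 h1, (ins_lt_ins _ _ _ _).2 h2, ins_lt_max _ _ _⟩

theorem Q_ins (s : Fin (n + 1)) (π : Perm (Fin n)) :
    Q (ins s π) ↔ Q π ∨ P π s.val := by
  constructor
  · rintro ⟨a, b, c, d, e, hab, hbc, hcd, hde, h1, h2, h3, h4⟩
    have hcs : c ≠ s := by
      rintro rfl; exact not_max_lt _ _ _ h1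
    have has : a ≠ s := by
      rintro rfl; exact not_max_lt _ _ _ h2
    have hds : d ≠ s := by
      rintro rfl; exact not_max_lt _ _ _ h3
    have hbs : b ≠ s := by
      rintro rfl; exact not_max_lt _ _ _ h4
    obtain ⟨a', rfl⟩ := exists_sA has
    obtain ⟨c', rfl⟩ := exists_sA hcs
    obtain ⟨d', rfl⟩ := exists_sA hds
    obtain ⟨b', rfl⟩ := exists_sA hbs
    by_cases hes : e = s
    · subst hes
      right
      exact ⟨a', b', c', d', (sA_lt_sA _ _ _).1 hab, (sA_lt_sA _ _ _).1 hbc,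
        (sA_lt_sA _ _ _).1 hcd, (sA_lt_s _ _).1 hde, (ins_lt_ins _ _ _ _).1 h1,
        (ins_lt_ins _ _ _ _).1 h2, (ins_lt_ins _ _ _ _).1 h3⟩
    · obtain ⟨e', rfl⟩ := exists_sA hes
      left
      exact ⟨a', b', c', d', e', (sA_lt_sA _ _ _).1 hab, (sA_lt_sA _ _ _).1 hbc,
        (sA_lt_sA _ _ _).1 hcd, (sA_lt_sA _ _ _).1 hde, (ins_lt_ins _ _ _ _).1 h1,
        (ins_lt_ins _ _ _ _).1 h2, (ins_lt_ins _ _ _ _).1 h3, (ins_lt_ins _ _ _ _).1 h4⟩
  · rintro (⟨a, b, c, d, e, hab, hbc, hcd, hde, h1, h2, h3, h4⟩ |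
      ⟨a, b, c, d, hab, hbc, hcd, hdk, h1, h2, h3⟩)
    · exact ⟨s.succAbove a, s.succAbove b, s.succAbove c, s.succAbove d, s.succAbove e,
        (sA_lt_sA _ _ _).2 hab, (sA_lt_sA _ _ _).2 hbc, (sA_lt_sA _ _ _).2 hcd,
        (sA_lt_sA _ _ _).2 hde, (ins_lt_ins _ _ _ _).2 h1, (ins_lt_ins _ _ _ _).2 h2,
        (ins_lt_ins _ _ _ _).2 h3, (ins_lt_ins _ _ _ _).2 h4⟩
    · exact ⟨s.succAbove a, s.succAbove b, s.succAbove c, s.succAbove d, s,
        (sA_lt_sA _ _ _).2 hab, (sA_lt_sA _ _ _).2 hbc, (sA_lt_sA _ _ _).2 hcd,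
        (sA_lt_s _ _).2 hdk, (ins_lt_ins _ _ _ _).2 h1, (ins_lt_ins _ _ _ _).2 h2,
        (ins_lt_ins _ _ _ _).2 h3, ins_lt_max _ _ _⟩

theorem V_mono {π : Perm (Fin n)} {i k k' : ℕ} (h : k ≤ k') (hV : V π i k) : V π i k' := by
  obtain ⟨z, x, hz, hx, hxk, hlt⟩ := hV
  exact ⟨z, x, hz, hx, lt_of_lt_of_le hxk h, hlt⟩

theorem T_mono {π : Perm (Fin n)} {i k k' : ℕ} (h : k ≤ k') (hT : T π i k) : T π i k' := by
  obtain ⟨z, x, y, hz, hx, hxy, hyk, hlt⟩ := hT
  exact ⟨z, x, y, hz, hx, hxy, lt_of_lt_of_le hyk h, hlt⟩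

theorem P_mono {π : Perm (Fin n)} {k k' : ℕ} (h : k ≤ k') (hP : P π k) : P π k' := by
  obtain ⟨a, b, c, d, hab, hbc, hcd, hdk, hh⟩ := hP
  exact ⟨a, b, c, d, hab, hbc, hcd, lt_of_lt_of_le hdk h, hh⟩

theorem V_of_T {π : Perm (Fin n)} {i k : ℕ} (hT : T π i k) : V π i k := by
  obtain ⟨z, x, y, hz, hx, hxy, hyk, h1, h2⟩ := hT
  exact ⟨z, x, hz, hx, lt_trans hxy hyk, h1⟩

theorem lt_of_V {π : Perm (Fin n)} {i k : ℕ} (hV : V π i k) : i < k := by
  obtain ⟨z, x, hz, hx, hxk, hlt⟩ := hV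
  omega

theorem ins_bijective :
    Function.Bijective (fun p : Fin (n + 1) × Perm (Fin n) => ins p.1 p.2) := by
  rw [Fintype.bijective_iff_injective_and_card]
  constructor
  · rintro ⟨s, π⟩ ⟨s', π'⟩ h
    simp only at h
    have hs : s = s' := by
      have h1 : ins s π s = ins s π s' := by
        rw [ins_self, h, ins_self]
      exact (ins s π).injective h1
    subst hs
    have hπ : π = π' := by
      ext j
      have h1 : ins s π (s.succAbove j) = ins s π' (s.succAbove j) := by rw [h]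
      rw [ins_succAbove, ins_succAbove] at h1
      exact congrArg Fin.val (Fin.castSucc_injective _ h1)
    rw [hπ]
  · rw [Fintype.card_prod, Fintype.card_perm, Fintype.card_perm, Fintype.card_fin,
      Fintype.card_fin, Nat.factorial_succ]

open Classical in
/-- number of 24135-avoiding permutations obtained from `π` by `r` insertions of a maximum -/
noncomputable def cnt : (r : ℕ) → (n : ℕ) → Perm (Fin n) → ℕ
  | 0, _, _ => 1
  | r + 1, n, π => ∑ s : Fin (n + 1), if P π s.val then 0 else cnt r (n + 1) (ins s π)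

open Classical in
/-- number of permutations of size `m` avoiding 24135 -/
noncomputable def A (m : ℕ) : ℕ := (Finset.univ.filter (fun π : Perm (Fin m) => ¬ Q π)).card

open Classical in
theorem sum_cnt (r : ℕ) : ∀ n : ℕ,
    (∑ π : Perm (Fin n), if Q π then 0 else cnt r n π) = A (n + r) := by
  induction r with
  | zero =>
    intro n
    simp only [cnt, A, Nat.add_zero, Finset.card_filter]
    refine Finset.sum_congr rfl fun π _ => ?_
    by_cases h : Q π <;> simp [h]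
  | succ r ih =>
    intro n
    have h1 : A (n + (r + 1)) = A (n + 1 + r) := by congr 1; omega
    rw [h1, ← ih (n + 1)]
    have h2 := (Equiv.ofBijective _ (ins_bijective (n := n))).sum_comp
      (fun ρ : Perm (Fin (n + 1)) => if Q ρ then 0 else cnt r (n + 1) ρ)
    rw [← h2, Fintype.sum_prod_type_right]
    refine Finset.sum_congr rfl fun π _ => ?_
    by_cases h : Q π
    · simp only [h, if_true, Equiv.ofBijective_apply, Q_ins, true_or, Finset.sum_const_zero]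
    · simp only [h, if_false, Equiv.ofBijective_apply, Q_ins, false_or, cnt]

theorem A_eq (r : ℕ) : A r = cnt r 0 1 := by
  classical
  have h := sum_cnt r 0
  rw [Nat.zero_add] at h
  rw [← h]
  have hQ : ∀ π : Perm (Fin 0), ¬ Q π := by
    rintro π ⟨a, _⟩
    exact a.elim0
  have hu : (Finset.univ : Finset (Perm (Fin 0))) = {1} := by
    ext π; simp [Subsingleton.elim π 1]
  rw [hu, Finset.sum_singleton, if_neg (hQ 1)]

end Pool.Agent.H49.EW
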