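import Mathlib
import Pool.Agent.H49.EW.Perm

/-!
Numerical codes for the states of the generating tree.
-/

namespace Pool.Agent.H49.EW

open Equiv

/-- evaluate `x` first, then continue with `k` -/
@[reducible] def force (x : ℕ) {α : Type} (k : ℕ → α) : α :=
  Nat.rec (k 0) (fun n _ => k (Nat.succ n)) x

theorem force_eq (x : ℕ) {α : Type} (k : ℕ → α) : force x k = k x := by
  cases x <;> rfl

/-- digit `i` (a byte) -/
def dig (c i : ℕ) : ℕ := Nat.mod (Nat.shiftRight c (Nat.mul 8 (Nat.succ i))) 256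

def lowB (s ts b : ℕ) : ℕ :=
  Bool.rec
    (Nat.sub b (Nat.sub (Nat.mod b 16) s))
    (Nat.add 17 (Nat.sub (Nat.sub b (Nat.sub (Nat.mod b 16) ts))
      (Nat.mul 16 (Nat.sub (Nat.div b 16) ts))))
    (Nat.ble (Nat.mul 16 s) b)

def highB (ts i b : ℕ) : ℕ :=
  Nat.add (Nat.add (Nat.mul 16 i) 1) (Nat.sub (Nat.mod b 16) (Nat.sub (Nat.mod b 16) ts))

def pack (f : ℕ → ℕ) (m : ℕ) : ℕ :=
  Nat.rec 0 (fun i ih => Nat.add ih (Nat.shiftLeft (f i) (Nat.mul 8 i))) m

def byteF (c s ts i : ℕ) : ℕ :=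
  Bool.rec (highB ts i (dig c (Nat.pred i))) (force (dig c i) (fun b => lowB s ts b)) (Nat.ble i s)

def childAux (c s ts : ℕ) : ℕ :=
  Nat.add (Nat.succ ts) (Nat.mul 256 (pack (byteF c s ts) (Nat.succ (Nat.succ ts))))

def child (c s : ℕ) : ℕ := force (Nat.mod (dig c s) 16) (fun ts => childAux c s ts)

def uu (c i : ℕ) : ℕ := dig c i / 16
def tt (c i : ℕ) : ℕ := dig c i % 16

theorem dig_eq (c i : ℕ) : dig c i = (c / 256 ^ (i + 1)) % 256 := by
  have h : dig c i = (c >>> (8 * (i + 1))) % 256 := rfl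
  rw [h, Nat.shiftRight_eq_div_pow, pow_mul]
  norm_num

theorem dig_lt (c i : ℕ) : dig c i < 256 := by
  rw [dig_eq]; exact Nat.mod_lt _ (by norm_num)

theorem dig_split (c i : ℕ) : dig c i = 16 * uu c i + tt c i := by
  unfold uu tt; omega

theorem tt_lt (c i : ℕ) : tt c i < 16 := by
  unfold tt; omega

theorem lowB_eq (s ts b : ℕ) :
    lowB s ts b = if 16 * s ≤ b then 17 + (b - (b % 16 - ts) - 16 * (b / 16 - ts))
      else b - (b % 16 - s) := by
  unfold lowB
  by_cases h : 16 * s ≤ b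
  · have hb : Nat.ble (Nat.mul 16 s) b = true := Nat.ble_eq_true_of_le h
    rw [hb, if_pos h]; rfl
  · have hb : Nat.ble (Nat.mul 16 s) b = false := by
      rw [← Bool.not_eq_true, Nat.ble_eq]; exact h
    rw [hb, if_neg h]; rfl

theorem highB_eq (ts i b : ℕ) : highB ts i b = 16 * i + 1 + (b % 16 - (b % 16 - ts)) := rfl

theorem byteF_eq (c s ts i : ℕ) :
    byteF c s ts i = if i ≤ s then lowB s ts (dig c i) else highB ts i (dig c (i - 1)) := by
  unfold byteF
  rw [force_eq]
  by_cases h : i ≤ s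
  · have hb : Nat.ble i s = true := Nat.ble_eq_true_of_le h
    rw [hb, if_pos h]
  · have hb : Nat.ble i s = false := by
      rw [← Bool.not_eq_true, Nat.ble_eq]; exact h
    rw [hb, if_neg h]; rfl

theorem pack_succ (f : ℕ → ℕ) (m : ℕ) : pack f (m + 1) = pack f m + f m * 256 ^ m := by
  have h : pack f (m + 1) = pack f m + (f m) <<< (8 * m) := rfl
  rw [h, Nat.shiftLeft_eq, pow_mul]
  norm_num

theorem pack_spec (f : ℕ → ℕ) (m : ℕ) (hf : ∀ i < m, f i < 256) :
    pack f m < 256 ^ m ∧ ∀ i < m, (pack f m / 256 ^ i) % 256 = f i := by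
  induction m with
  | zero => exact ⟨by simp [pack], fun i hi => absurd hi (Nat.not_lt_zero _)⟩
  | succ m ih =>
    obtain ⟨h1, h2⟩ := ih (fun i hi => hf i (by omega))
    have hfm := hf m (by omega)
    refine ⟨?_, ?_⟩
    · rw [pack_succ, pow_succ]
      nlinarith [Nat.pos_of_ne_zero (pow_ne_zero m (by norm_num : (256 : ℕ) ≠ 0))]
    · intro i hi
      rw [pack_succ]
      rcases Nat.lt_succ_iff_lt_or_eq.1 hi with hlt | rfl
      · have h3 : 256 ^ m = 256 ^ i * (256 * 256 ^ (m - i - 1)) := by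
          rw [← pow_succ', ← pow_add]; congr 1; omega
        have h4 : (pack f m + f m * 256 ^ m) / 256 ^ i
            = pack f m / 256 ^ i + 256 * (f m * 256 ^ (m - i - 1)) := by
          rw [h3]
          have h5 : f m * (256 ^ i * (256 * 256 ^ (m - i - 1)))
              = 256 ^ i * (256 * (f m * 256 ^ (m - i - 1))) := by ring
          rw [h5, Nat.add_mul_div_left _ _ (pow_pos (by norm_num) _)]
        rw [h4, Nat.add_mul_mod_self_left]
        exact h2 i hlt
      · rw [Nat.add_mul_div_right _ _ (pow_pos (by norm_num) _), Nat.div_eq_of_lt h1, Nat.zero_add,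
          Nat.mod_eq_of_lt hfm]

theorem child_eq (c s : ℕ) :
    child c s = (tt c s + 1) + 256 * pack (byteF c s (tt c s)) (tt c s + 2) := by
  unfold child
  rw [force_eq]
  rfl

theorem K_child (c s : ℕ) : child c s % 256 = tt c s + 1 := by
  rw [child_eq, Nat.add_mul_mod_self_left]
  have := tt_lt c s
  omega

theorem dig_child (c s i : ℕ) (hf : ∀ i < tt c s + 2, byteF c s (tt c s) i < 256)
    (hi : i ≤ tt c s + 1) : dig (child c s) i = byteF c s (tt c s) i := by
  rw [dig_eq, child_eq, pow_succ', ← Nat.div_div_eq_div_mul]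
  have h1 : (tt c s + 1 + 256 * pack (byteF c s (tt c s)) (tt c s + 2)) / 256
      = pack (byteF c s (tt c s)) (tt c s + 2) := by
    have := tt_lt c s
    omega
  rw [h1]
  exact (pack_spec _ _ hf).2 i (by omega)

/-- the digits of a good code -/
def WF (c : ℕ) : Prop := c % 256 ≤ 13 ∧ ∀ i ≤ c % 256, i ≤ uu c i ∧ uu c i ≤ tt c i ∧ tt c i ≤ c % 256

theorem byteF_low (c s i : ℕ) (h : WF c) (hs : s ≤ c % 256) (hi : i ≤ s) :
    byteF c s (tt c s) i =
      16 * (if uu c i < s then uu c i else min (uu c i) (tt c s) + 1) +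
        (if uu c i < s then min (tt c i) s else min (tt c i) (tt c s) + 1) := by
  rw [byteF_eq, if_pos hi, lowB_eq]
  obtain ⟨h0, h1⟩ := h
  obtain ⟨h2, h3, h4⟩ := h1 i (by omega)
  obtain ⟨h5, h6, h7⟩ := h1 s hs
  have h8 := dig_split c i
  have h9 := tt_lt c i
  have h10 : dig c i / 16 = uu c i := rfl
  have h11 : dig c i % 16 = tt c i := rfl
  rw [h10, h11]
  split_ifs <;> omega

theorem byteF_high (c s i : ℕ) (hi : ¬ i ≤ s) :
    byteF c s (tt c s) i = 16 * i + (min (tt c (i - 1)) (tt c s) + 1) := by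
  rw [byteF_eq, if_neg hi, highB_eq]
  have h11 : dig c (i - 1) % 16 = tt c (i - 1) := rfl
  rw [h11]
  omega

theorem byteF_lt (c s : ℕ) (h : WF c) (hs : s ≤ c % 256) :
    ∀ i < tt c s + 2, byteF c s (tt c s) i < 256 := by
  intro i hi
  obtain ⟨h5, h6, h7⟩ := h.2 s hs
  have h0 := h.1
  by_cases his : i ≤ s
  · rw [byteF_low c s i h hs his]
    obtain ⟨h2, h3, h4⟩ := h.2 i (by omega)
    split_ifs <;> omega
  · rw [byteF_high c s i his]
    omega

theorem uu_child_low (c s i : ℕ) (h : WF c) (hs : s ≤ c % 256) (hi : i ≤ s) :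
    uu (child c s) i = (if uu c i < s then uu c i else min (uu c i) (tt c s) + 1) ∧
    tt (child c s) i = (if uu c i < s then min (tt c i) s else min (tt c i) (tt c s) + 1) := by
  have h0 := h.1
  obtain ⟨h5, h6, h7⟩ := h.2 s hs
  obtain ⟨h2, h3, h4⟩ := h.2 i (by omega)
  have hd := dig_child c s i (byteF_lt c s h hs) (by omega)
  rw [byteF_low c s i h hs hi] at hd
  have e1 : uu (child c s) i = dig (child c s) i / 16 := rfl
  have e2 : tt (child c s) i = dig (child c s) i % 16 := rfl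
  rw [e1, e2, hd]
  constructor <;> (split_ifs <;> omega)

theorem uu_child_high (c s i : ℕ) (h : WF c) (hs : s ≤ c % 256) (hi : ¬ i ≤ s)
    (hi2 : i ≤ tt c s + 1) :
    uu (child c s) i = i ∧ tt (child c s) i = min (tt c (i - 1)) (tt c s) + 1 := by
  have h0 := h.1
  obtain ⟨h5, h6, h7⟩ := h.2 s hs
  have hd := dig_child c s i (byteF_lt c s h hs) hi2
  rw [byteF_high c s i hi] at hd
  unfold uu at ⊢
  have : tt (child c s) i = dig (child c s) i % 16 := rfl
  rw [this, hd]
  constructor <;> omega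

/-- `c` is the code of the state of `π` -/
def Rep {n : ℕ} (π : Perm (Fin n)) (c : ℕ) : Prop :=
  c % 256 ≤ n ∧ ¬ P π (c % 256) ∧ (c % 256 < n → P π (c % 256 + 1)) ∧
    ∀ i ≤ c % 256, uu c i ≤ c % 256 ∧ tt c i ≤ c % 256 ∧
      ∀ k ≤ c % 256, (V π i k ↔ uu c i < k) ∧ (T π i k ↔ tt c i < k)

theorem Rep.wf {n : ℕ} {π : Perm (Fin n)} {c : ℕ} (h : Rep π c) (hn : n ≤ 13) : WF c := by
  obtain ⟨h1, h2, h3, h4⟩ := h
  refine ⟨by omega, fun i hi => ?_⟩
  obtain ⟨h5, h6, h7⟩ := h4 i hi
  refine ⟨?_, ?_, h6⟩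
  · by_contra hlt
    have := lt_of_V (((h7 i hi).1).2 (by omega))
    omega
  · by_contra hlt
    have h8 := ((h7 (uu c i) h5).2).2 (by omega)
    have := ((h7 (uu c i) h5).1).1 (V_of_T h8)
    omega

theorem Rep.child {n : ℕ} {π : Perm (Fin n)} {c : ℕ} (h : Rep π c) (hn : n ≤ 13)
    (s : Fin (n + 1)) (hs : s.val ≤ c % 256) : Rep (ins s π) (child c s.val) := by
  have hw := h.wf hn
  obtain ⟨h1, h2, h3, h4⟩ := h
  obtain ⟨hs1, hs2, hs3⟩ := hw.2 s.val hs
  obtain ⟨hs4, hs5, hs6⟩ := h4 s.val hs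
  have hK := K_child c s.val
  unfold Rep
  rw [hK]
  refine ⟨by omega, ?_, ?_, ?_⟩
  · rw [P_ins]
    have hd : dl s.val (tt c s.val + 1) = tt c s.val := by
      unfold dl; split_ifs <;> omega
    rw [hd]
    rintro (hP | hT)
    · exact h2 (P_mono hs3 hP)
    · have := ((hs6 _ hs3).2).1 hT
      omega
  · intro hlt
    rw [P_ins]
    have hd : dl s.val (tt c s.val + 1 + 1) = tt c s.val + 1 := by
      unfold dl; split_ifs <;> omega
    rw [hd]
    by_cases hK2 : tt c s.val = c % 256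
    · left
      rw [hK2]
      exact h3 (by omega)
    · right
      exact ((hs6 (tt c s.val + 1) (by omega)).2).2 (by omega)
  · intro i hi
    by_cases his : i ≤ s.val
    · obtain ⟨hu, ht⟩ := uu_child_low c s.val i hw hs his
      obtain ⟨hi1, hi2, hi3⟩ := hw.2 i (by omega)
      rw [hu, ht]
      refine ⟨by split_ifs <;> omega, by split_ifs <;> omega, ?_⟩
      intro k hk
      have hdi : dl s.val i = i := by
        unfold dl; split_ifs <;> omega
      have hdk : dl s.val k ≤ c % 256 := by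
        unfold dl; split_ifs <;> omega
      rw [V_ins _ _ _ _ (by omega), T_ins, hdi, ((h4 i (by omega)).2.2 _ hdk).1,
        ((h4 i (by omega)).2.2 _ hdk).2, ((h4 i (by omega)).2.2 _ hs).1]
      unfold dl
      constructor <;> (split_ifs <;> omega)
    · obtain ⟨hu, ht⟩ := uu_child_high c s.val i hw hs his hi
      obtain ⟨hi1, hi2, hi3⟩ := hw.2 (i - 1) (by omega)
      rw [hu, ht]
      refine ⟨hi, by omega, ?_⟩
      intro k hk
      have hdi : dl s.val i = i - 1 := by
        unfold dl; split_ifs <;> omega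
      have hdk : dl s.val k ≤ c % 256 := by
        unfold dl; split_ifs <;> omega
      rw [V_ins _ _ _ _ (by omega), T_ins, hdi, ((h4 (i - 1) (by omega)).2.2 _ hdk).1,
        ((h4 (i - 1) (by omega)).2.2 _ hdk).2, ((h4 (i - 1) (by omega)).2.2 _ hs).1]
      unfold dl
      constructor <;> (split_ifs <;> omega)

/-- number of descendants modulo 2, by codes -/
def g : ℕ → ℕ → ZMod 2
  | 0, _ => 1
  | r + 1, c => ∑ s ∈ Finset.range (c % 256 + 1), g r (child c s)

theorem cnt_eq_g (r : ℕ) : ∀ (n : ℕ) (π : Perm (Fin n)) (c : ℕ), Rep π c → n + r ≤ 14 →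
    (cnt r n π : ZMod 2) = g r c := by
  induction r with
  | zero => intro n π c _ _; simp [cnt, g]
  | succ r ih =>
    intro n π c hR hn
    classical
    have hK : c % 256 ≤ n := hR.1
    have key : ∀ s : Fin (n + 1),
        (((if P π s.val then 0 else cnt r (n + 1) (ins s π) : ℕ)) : ZMod 2)
          = (fun k : ℕ => if k ≤ c % 256 then g r (child c k) else 0) s.val := by
      intro s
      by_cases hs : s.val ≤ c % 256
      · have hP : ¬ P π s.val := fun h => hR.2.1 (P_mono hs h)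
        simp only [hP, hs, if_false, if_true]
        exact ih (n + 1) _ _ (hR.child (by omega) s hs) (by omega)
      · have hP : P π s.val := P_mono (by omega : c % 256 + 1 ≤ s.val)
          (hR.2.2.1 (by have := s.isLt; omega))
        simp only [hP, hs, if_true, if_false, Nat.cast_zero]
    have h1 : (cnt (r + 1) n π : ZMod 2)
        = ∑ s : Fin (n + 1), (((if P π s.val then 0 else cnt r (n + 1) (ins s π) : ℕ)) : ZMod 2) := by
      simp only [cnt]
      rw [Nat.cast_sum]
    rw [h1, Finset.sum_congr rfl (fun s _ => key s),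
      Fin.sum_univ_eq_sum_range (fun k : ℕ => if k ≤ c % 256 then g r (child c k) else 0) (n + 1)]
    simp only [g]
    rw [← Finset.sum_filter]
    refine Finset.sum_congr ?_ fun _ _ => rfl
    ext k
    simp only [Finset.mem_filter, Finset.mem_range]
    omega

theorem Rep_root : Rep (1 : Perm (Fin 0)) 0 := by
  refine ⟨by norm_num, ?_, by norm_num, ?_⟩
  · rintro ⟨a, _⟩; exact a.elim0
  · intro i hi
    have h0 : (0 : ℕ) % 256 = 0 := rfl
    rw [h0] at hi ⊢
    have hi0 : i = 0 := by omega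
    subst hi0
    have hu : uu 0 0 = 0 := by decide
    have ht : tt 0 0 = 0 := by decide
    refine ⟨by rw [hu], by rw [ht], ?_⟩
    intro k hk
    have hk0 : k = 0 := by omega
    subst hk0
    rw [hu, ht]
    constructor
    · constructor
      · rintro ⟨a, _⟩; exact a.elim0
      · intro h; omega
    · constructor
      · rintro ⟨a, _⟩; exact a.elim0
      · intro h; omega

theorem A14_eq : (A 14 : ZMod 2) = g 14 0 := by
  rw [A_eq]
  exact cnt_eq_g 14 0 1 0 Rep_root (by norm_num)

end Pool.Agent.H49.EW
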