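import Mathlib
import Pool.Agent.H49.EW.Code

/-!
Evaluation of the parity of the number of descendants, by lists of codes modulo 2.
-/

namespace Pool.Agent.H49.EW

/-- sum of `g r` over a list of codes -/
def sumg (r : ℕ) (l : List ℕ) : ZMod 2 := (l.map (g r)).sum

theorem sumg_nil (r : ℕ) : sumg r [] = 0 := rfl

theorem sumg_cons (r a : ℕ) (l : List ℕ) : sumg r (a :: l) = g r a + sumg r l := by
  simp [sumg]

theorem sumg_append (r : ℕ) (l l' : List ℕ) : sumg r (l ++ l') = sumg r l + sumg r l' := by
  simp [sumg]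

/-- the children of `c` at the sites `< m`, in front of `rest` -/
def childrenOn (c m : ℕ) (rest : List ℕ) : List ℕ :=
  Nat.rec rest (fun s ih => force (child c s) (fun v => List.cons v ih)) m

theorem childrenOn_succ (c m : ℕ) (rest : List ℕ) :
    childrenOn c (m + 1) rest = child c m :: childrenOn c m rest := by
  have h : childrenOn c (m + 1) rest
      = force (child c m) (fun v => List.cons v (childrenOn c m rest)) := rfl
  rw [h, force_eq]

theorem sumg_childrenOn (r c m : ℕ) (rest : List ℕ) :
    sumg r (childrenOn c m rest) = (∑ s ∈ Finset.range m, g r (child c s)) + sumg r rest := by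
  induction m with
  | zero => simp [childrenOn]
  | succ m ih =>
    rw [childrenOn_succ, sumg_cons, ih, Finset.sum_range_succ]
    ring

def flatChildren (l : List ℕ) : List ℕ :=
  List.rec [] (fun a _ ih => childrenOn a (Nat.succ (Nat.mod a 256)) ih) l

theorem sumg_flatChildren (r : ℕ) (l : List ℕ) : sumg r (flatChildren l) = sumg (r + 1) l := by
  induction l with
  | nil => rfl
  | cons a t ih =>
    have h : flatChildren (a :: t) = childrenOn a (a % 256 + 1) (flatChildren t) := rfl
    rw [h, sumg_childrenOn, sumg_cons, ih]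
    rfl

/-- merge two lists, dropping pairs of equal heads -/
def xmerge (l1 : List ℕ) : List ℕ → List ℕ :=
  List.rec (fun l2 => l2)
    (fun a t1 ih1 l2 =>
      List.rec (List.cons a t1)
        (fun b t2 ih2 =>
          Bool.rec (List.cons b ih2)
            (Bool.rec (List.cons a (ih1 (List.cons b t2))) (ih1 t2) (Nat.ble b a))
            (Nat.ble a b)) l2) l1

theorem xmerge_nil (l : List ℕ) : xmerge [] l = l := rfl

theorem xmerge_cons_nil (a : ℕ) (l : List ℕ) : xmerge (a :: l) [] = a :: l := rfl

theorem xmerge_cons_cons (a : ℕ) (l : List ℕ) (b : ℕ) (l' : List ℕ) :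
    xmerge (a :: l) (b :: l') = Bool.rec (List.cons b (xmerge (a :: l) l'))
            (Bool.rec (List.cons a (xmerge l (List.cons b l'))) (xmerge l l') (Nat.ble b a))
            (Nat.ble a b) := rfl

theorem zmod2_add_self (x : ZMod 2) : x + x = 0 := by
  revert x; decide

theorem sumg_xmerge (r : ℕ) (l1 : List ℕ) : ∀ l2 : List ℕ,
    sumg r (xmerge l1 l2) = sumg r l1 + sumg r l2 := by
  induction l1 with
  | nil => intro l2; rw [xmerge_nil, sumg_nil, zero_add]
  | cons a t1 ih1 =>
    intro l2
    induction l2 with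
    | nil => rw [xmerge_cons_nil, sumg_nil, add_zero]
    | cons b t2 ih2 =>
      rw [xmerge_cons_cons]
      cases h1 : Nat.ble a b with
      | false =>
        simp only
        rw [sumg_cons, ih2, sumg_cons, sumg_cons]
        ring
      | true =>
        cases h2 : Nat.ble b a with
        | false =>
          simp only
          rw [sumg_cons, ih1, sumg_cons, sumg_cons]
          ring
        | true =>
          simp only
          have hab : a = b := le_antisymm (Nat.le_of_ble_eq_true h1) (Nat.le_of_ble_eq_true h2)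
          subst hab
          rw [ih1, sumg_cons, sumg_cons]
          have := zmod2_add_self (g r a)
          linear_combination -this

/-- take `2^d` items and merge them -/
def tree (d : ℕ) : List ℕ → List ℕ × List ℕ :=
  Nat.rec (fun l => List.rec ([], []) (fun a t _ => ([a], t)) l)
    (fun _ ih l => Prod.rec (fun l1 r1 => Prod.rec (fun l2 r2 => (xmerge l1 l2, r2)) (ih r1)) (ih l)) d

theorem tree_zero_nil : tree 0 [] = ([], []) := rfl
theorem tree_zero_cons (a : ℕ) (t : List ℕ) : tree 0 (a :: t) = ([a], t) := rfl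
theorem tree_succ (d : ℕ) (l : List ℕ) :
    tree (d + 1) l = (xmerge (tree d l).1 (tree d (tree d l).2).1, (tree d (tree d l).2).2) := rfl

theorem sumg_tree (r d : ℕ) : ∀ l : List ℕ, sumg r (tree d l).1 + sumg r (tree d l).2 = sumg r l := by
  induction d with
  | zero =>
    intro l
    cases l with
    | nil => rw [tree_zero_nil]; simp [sumg_nil]
    | cons a t => rw [tree_zero_cons, sumg_cons, sumg_cons, sumg_nil]; ring
  | succ d ih =>
    intro l
    rw [tree_succ]
    simp only
    rw [sumg_xmerge, ← ih l, ← ih (tree d l).2]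
    ring

def xsort (d : ℕ) (l : List ℕ) : List ℕ :=
  Prod.rec (fun l1 r1 => xmerge l1 r1) (tree d l)

theorem sumg_xsort (r d : ℕ) (l : List ℕ) : sumg r (xsort d l) = sumg r l := by
  have h : xsort d l = xmerge (tree d l).1 (tree d l).2 := rfl
  rw [h, sumg_xmerge, sumg_tree]

def step (d : ℕ) (l : List ℕ) : List ℕ := xsort d (flatChildren l)

theorem sumg_step (r d : ℕ) (l : List ℕ) : sumg r (step d l) = sumg (r + 1) l := by
  unfold step
  rw [sumg_xsort, sumg_flatChildren]

def forward (d n : ℕ) : List ℕ := Nat.rec [0] (fun _ ih => step d ih) n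

theorem sumg_forward (r d n : ℕ) : sumg r (forward d n) = g (n + r) 0 := by
  induction n generalizing r with
  | zero =>
    have h : forward d 0 = [0] := rfl
    rw [h, sumg_cons, sumg_nil, add_zero, Nat.zero_add]
  | succ n ih =>
    have h : forward d (n + 1) = step d (forward d n) := rfl
    rw [h, sumg_step, ih]
    congr 1
    omega

/-- slow evaluation -/
def slow : ℕ → ℕ → ℕ
  | 0, _ => 1
  | r + 1, c => ∑ s ∈ Finset.range (c % 256 + 1), slow r (child c s)

theorem slow_eq (r : ℕ) : ∀ c, (slow r c : ZMod 2) = g r c := by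
  induction r with
  | zero => intro c; simp [slow, g]
  | succ r ih => intro c; simp [slow, g, ih]

def tI (c i : ℕ) : ℕ := Nat.mod (Nat.shiftRight c (Nat.mul 8 (Nat.succ i))) 16
def uI (c i : ℕ) : ℕ := Nat.mod (Nat.shiftRight c (Nat.add (Nat.mul 8 i) 12)) 16

theorem tI_eq (c i : ℕ) : tI c i = tt c i := by
  have h : tI c i = (c >>> (8 * (i + 1))) % 16 := rfl
  have h2 : tt c i = dig c i % 16 := rfl
  rw [h, h2, dig_eq, Nat.shiftRight_eq_div_pow, pow_mul]
  norm_num

theorem uI_eq (c i : ℕ) : uI c i = uu c i := by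
  have h : uI c i = (c >>> (8 * i + 12)) % 16 := rfl
  have h2 : uu c i = dig c i / 16 := rfl
  have h3 : 8 * i + 12 = 8 * (i + 1) + 4 := by ring
  rw [h, h2, dig_eq, Nat.shiftRight_eq_div_pow, h3, pow_add, pow_mul, ← Nat.div_div_eq_div_mul]
  norm_num
  omega

/-- inner sum of the fast formula: sum over `s = u+1, ..., u+m` of `s + 1 + min t t_s` -/
def inner (c u t m : ℕ) : ℕ :=
  Nat.rec 0 (fun j ih =>
      Nat.add ih (Nat.add (Nat.add u j) (Nat.sub t (Nat.sub t (tI c (Nat.succ (Nat.add u j))))))) m

def outBody (c K i u t : ℕ) (fb acc : ℕ) (ih : ℕ → ℕ) : ℕ :=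
  Bool.rec fb (Bool.rec fb (Bool.rec fb (ih (Nat.add (Nat.add acc (Nat.mul t (Nat.sub K t)))
    (inner c u t (Nat.sub t u)))) (Nat.ble t K)) (Nat.ble u t)) (Nat.ble i u)

/-- outer sum of the fast formula, with fallback value `fb` for an invalid code -/
def outer (c K fb m : ℕ) : ℕ → ℕ :=
  Nat.rec (fun acc => acc) (fun i ih acc => outBody c K i (uI c i) (tI c i) fb acc ih) m

theorem inner_succ (c u t m : ℕ) :
    inner c u t (m + 1) = inner c u t m + ((u + m) + min t (tt c (u + m + 1))) := by
  have h : inner c u t (m + 1) = Nat.add (inner c u t m) (Nat.add (Nat.add u m)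
      (Nat.sub t (Nat.sub t (tI c (Nat.succ (Nat.add u m)))))) := rfl
  rw [h]
  have h2 : tI c (Nat.succ (Nat.add u m)) = tt c (u + m + 1) := tI_eq _ _
  rw [h2]
  have h3 : Nat.sub t (Nat.sub t (tt c (u + m + 1))) = min t (tt c (u + m + 1)) := by
    show t - (t - tt c (u + m + 1)) = _
    omega
  rw [h3]
  rfl

theorem inner_eq (c u t m : ℕ) :
    inner c u t m = ∑ j ∈ Finset.range m, ((u + j) + min t (tt c (u + j + 1))) := by
  induction m with
  | zero => rfl
  | succ m ih => rw [inner_succ, ih, Finset.sum_range_succ]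

/-- the value of the fast formula -/
def outerSum (c K m : ℕ) : ℕ :=
  ∑ i ∈ Finset.range m, (tt c i * (K - tt c i) + inner c (uu c i) (tt c i) (tt c i - uu c i))

theorem outBody_good (c K i u t fb acc : ℕ) (ih : ℕ → ℕ) (h1 : i ≤ u) (h2 : u ≤ t) (h3 : t ≤ K) :
    outBody c K i u t fb acc ih = ih (acc + t * (K - t) + inner c u t (t - u)) := by
  unfold outBody
  rw [Nat.ble_eq_true_of_le h1, Nat.ble_eq_true_of_le h2, Nat.ble_eq_true_of_le h3]
  rfl

theorem ble_false {a b : ℕ} (h : ¬ a ≤ b) : Nat.ble a b = false := by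
  rw [← Bool.not_eq_true, Nat.ble_eq]; exact h

theorem outBody_bad (c K i u t fb acc : ℕ) (ih : ℕ → ℕ) (h : ¬ (i ≤ u ∧ u ≤ t ∧ t ≤ K)) :
    outBody c K i u t fb acc ih = fb := by
  unfold outBody
  by_cases h1 : i ≤ u
  · rw [Nat.ble_eq_true_of_le h1]
    by_cases h2 : u ≤ t
    · rw [Nat.ble_eq_true_of_le h2]
      have h3 : ¬ t ≤ K := fun h3 => h ⟨h1, h2, h3⟩
      rw [ble_false h3]
    · rw [ble_false h2]
  · rw [ble_false h1]

theorem outer_spec (c K fb m : ℕ) : ∀ acc : ℕ,
    ((∀ i < m, i ≤ uu c i ∧ uu c i ≤ tt c i ∧ tt c i ≤ K) →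
      outer c K fb m acc = acc + outerSum c K m) ∧
    (¬ (∀ i < m, i ≤ uu c i ∧ uu c i ≤ tt c i ∧ tt c i ≤ K) → outer c K fb m acc = fb) := by
  induction m with
  | zero =>
    intro acc
    refine ⟨fun _ => ?_, fun h => absurd (fun i hi => absurd hi (Nat.not_lt_zero _)) h⟩
    show acc = acc + 0
    rfl
  | succ m ih =>
    intro acc
    have h : outer c K fb (m + 1) acc
        = outBody c K m (uI c m) (tI c m) fb acc (outer c K fb m) := rfl
    rw [h, uI_eq, tI_eq]
    by_cases hm : m ≤ uu c m ∧ uu c m ≤ tt c m ∧ tt c m ≤ K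
    · rw [outBody_good _ _ _ _ _ _ _ _ hm.1 hm.2.1 hm.2.2]
      obtain ⟨e1, e2⟩ := ih (acc + tt c m * (K - tt c m) + inner c (uu c m) (tt c m)
        (tt c m - uu c m))
      constructor
      · intro hall
        rw [e1 (fun i hi => hall i (by omega))]
        unfold outerSum
        rw [Finset.sum_range_succ]
        ring
      · intro hn
        refine e2 (fun hall => hn (fun i hi => ?_))
        rcases Nat.lt_succ_iff_lt_or_eq.1 hi with hlt | rfl
        · exact hall i hlt
        · exact hm
    · rw [outBody_bad _ _ _ _ _ _ _ _ hm]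
      constructor
      · intro hall
        exact absurd (hall m (by omega)) hm
      · intro _
        rfl

/-- the pair function -/
def FF (c i s : ℕ) : ZMod 2 :=
  if uu c i < s then (if s ≤ tt c i then (s : ZMod 2) + 1 + (min (tt c i) (tt c s) : ℕ)
    else (tt c i : ZMod 2)) else 0

theorem zmod2_two : (2 : ZMod 2) = 0 := by decide

theorem outer_FF (c : ℕ) (h : WF c) :
    (outerSum c (c % 256) (c % 256 + 1) : ZMod 2)
      = ∑ i ∈ Finset.range (c % 256 + 1), ∑ s ∈ Finset.range (c % 256 + 1), FF c i s := by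
  unfold outerSum
  rw [Nat.cast_sum]
  refine Finset.sum_congr rfl fun i hi => ?_
  rw [Finset.mem_range] at hi
  obtain ⟨h1, h2, h3⟩ := h.2 i (by omega)
  set K := c % 256 with hK
  -- split the range
  have hsplit : Finset.range (K + 1) = Finset.range (uu c i + 1) ∪
      (Finset.Ico (uu c i + 1) (tt c i + 1) ∪ Finset.Ico (tt c i + 1) (K + 1)) := by
    ext s
    simp only [Finset.mem_range, Finset.mem_union, Finset.mem_Ico]
    omega
  have hd1 : Disjoint (Finset.range (uu c i + 1))
      (Finset.Ico (uu c i + 1) (tt c i + 1) ∪ Finset.Ico (tt c i + 1) (K + 1)) := by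
    rw [Finset.disjoint_left]
    intro s hs hs'
    simp only [Finset.mem_range, Finset.mem_union, Finset.mem_Ico] at hs hs'
    omega
  have hd2 : Disjoint (Finset.Ico (uu c i + 1) (tt c i + 1)) (Finset.Ico (tt c i + 1) (K + 1)) := by
    rw [Finset.disjoint_left]
    intro s hs hs'
    simp only [Finset.mem_Ico] at hs hs'
    omega
  rw [hsplit, Finset.sum_union hd1, Finset.sum_union hd2]
  have e1 : ∑ s ∈ Finset.range (uu c i + 1), FF c i s = 0 := by
    refine Finset.sum_eq_zero fun s hs => ?_
    rw [Finset.mem_range] at hs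
    unfold FF
    rw [if_neg (by omega)]
  have e3 : ∑ s ∈ Finset.Ico (tt c i + 1) (K + 1), FF c i s = ((K - tt c i : ℕ) : ZMod 2) * tt c i := by
    rw [Finset.sum_congr rfl (g := fun _ => (tt c i : ZMod 2))]
    · rw [Finset.sum_const, Nat.card_Ico, nsmul_eq_mul]
      congr 2
      omega
    · intro s hs
      rw [Finset.mem_Ico] at hs
      unfold FF
      rw [if_pos (by omega), if_neg (by omega)]
  have e2 : ∑ s ∈ Finset.Ico (uu c i + 1) (tt c i + 1), FF c i s
      = ((inner c (uu c i) (tt c i) (tt c i - uu c i) : ℕ) : ZMod 2) := by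
    rw [inner_eq, Nat.cast_sum, Finset.sum_Ico_eq_sum_range]
    refine Finset.sum_congr (by congr 1; omega) fun j hj => ?_
    rw [Finset.mem_range] at hj
    unfold FF
    rw [if_pos (by omega), if_pos (by omega)]
    have hj2 : uu c i + 1 + j = uu c i + j + 1 := by omega
    rw [hj2]
    push_cast
    linear_combination zmod2_two
  rw [e1, e2, e3]
  push_cast
  ring

theorem g_one (c : ℕ) : g 1 c = ((c % 256 + 1 : ℕ) : ZMod 2) := by
  simp [g]

theorem g_two (c : ℕ) : g 2 c = ∑ s ∈ Finset.range (c % 256 + 1), (tt c s : ZMod 2) := by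
  have h : g 2 c = ∑ s ∈ Finset.range (c % 256 + 1), g 1 (child c s) := rfl
  rw [h]
  refine Finset.sum_congr rfl fun s _ => ?_
  rw [g_one, K_child]
  push_cast
  linear_combination zmod2_two

theorem g_three (c : ℕ) (h : WF c) : g 3 c = (outerSum c (c % 256) (c % 256 + 1) : ZMod 2) := by
  rw [outer_FF c h]
  have h3 : g 3 c = ∑ s ∈ Finset.range (c % 256 + 1), g 2 (child c s) := rfl
  rw [h3]
  set K := c % 256 with hK
  -- the two parts of the inner sum
  have key : ∀ s ∈ Finset.range (K + 1), g 2 (child c s) =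
      (∑ i ∈ Finset.range (K + 1), (if i ≤ s then
        ((if uu c i < s then min (tt c i) s else min (tt c i) (tt c s) + 1 : ℕ) : ZMod 2) else 0)) +
      (∑ i ∈ Finset.range (K + 1), (if s ≤ i ∧ i ≤ tt c s then
        ((min (tt c i) (tt c s) + 1 : ℕ) : ZMod 2) else 0)) := by
    intro s hs
    rw [Finset.mem_range] at hs
    obtain ⟨h4, h5, h6⟩ := h.2 s (by omega)
    rw [g_two, K_child]
    have hsplit : Finset.range (tt c s + 1 + 1) = Finset.range (s + 1) ∪
        Finset.Ico (s + 1) (tt c s + 1 + 1) := by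
      ext i
      simp only [Finset.mem_range, Finset.mem_union, Finset.mem_Ico]
      omega
    have hd : Disjoint (Finset.range (s + 1)) (Finset.Ico (s + 1) (tt c s + 1 + 1)) := by
      rw [Finset.disjoint_left]
      intro i hi hi'
      simp only [Finset.mem_range, Finset.mem_Ico] at hi hi'
      omega
    rw [hsplit, Finset.sum_union hd]
    congr 1
    · rw [← Finset.sum_filter]
      refine Finset.sum_congr ?_ ?_
      · ext i
        simp only [Finset.mem_filter, Finset.mem_range]
        omega
      · intro i hi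
        rw [Finset.mem_filter, Finset.mem_range] at hi
        rw [(uu_child_low c s i h (by omega) (by omega)).2]
    · rw [← Finset.sum_filter]
      symm
      refine Finset.sum_bij (fun i _ => i + 1) ?_ ?_ ?_ ?_
      · intro i hi
        simp only [Finset.mem_filter, Finset.mem_range] at hi
        rw [Finset.mem_Ico]
        omega
      · intro i _ j _ hij
        omega
      · intro i hi
        rw [Finset.mem_Ico] at hi
        refine ⟨i - 1, ?_, by omega⟩
        simp only [Finset.mem_filter, Finset.mem_range]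
        omega
      · intro i hi
        simp only [Finset.mem_filter, Finset.mem_range] at hi
        rw [(uu_child_high c s (i + 1) h (by omega) (by omega) (by omega)).2, Nat.add_sub_cancel]
  rw [Finset.sum_congr rfl key, Finset.sum_add_distrib]
  have hswap1 := Finset.sum_comm (s := Finset.range (K + 1)) (t := Finset.range (K + 1))
    (f := fun s i => (if i ≤ s then
        ((if uu c i < s then min (tt c i) s else min (tt c i) (tt c s) + 1 : ℕ) : ZMod 2) else 0))
  rw [hswap1, ← Finset.sum_add_distrib]
  refine Finset.sum_congr rfl fun i hi => ?_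
  rw [← Finset.sum_add_distrib]
  refine Finset.sum_congr rfl fun s hs => ?_
  rw [Finset.mem_range] at hi hs
  obtain ⟨h4, h5, h6⟩ := h.2 i (by omega)
  obtain ⟨h7, h8, h9⟩ := h.2 s (by omega)
  unfold FF
  by_cases c1 : uu c i < s
  · rw [if_pos c1, if_pos (by omega), if_pos c1]
    by_cases c2 : s ≤ tt c i
    · rw [if_pos c2, if_pos (by omega)]
      have e1 : min (tt c i) s = s := by omega
      have e2 : min (tt c s) (tt c i) = min (tt c i) (tt c s) := min_comm _ _
      rw [e1, e2]
      push_cast
      ring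
    · rw [if_neg c2, if_neg (by omega)]
      have e1 : min (tt c i) s = tt c i := by omega
      rw [e1]
      ring
  · rw [if_neg c1]
    by_cases c2 : i ≤ s
    · rw [if_pos c2, if_neg c1, if_pos (by omega)]
      have e2 : min (tt c s) (tt c i) = min (tt c i) (tt c s) := min_comm _ _
      rw [e2]
      exact zmod2_add_self _
    · have c3 : ¬ (i ≤ s ∧ s ≤ tt c i) := by omega
      simp only [if_neg c1, if_neg c2, if_neg c3, add_zero]

def g3aux (c K fb : ℕ) : ℕ := Bool.rec fb (outer c K fb (Nat.succ K) 0) (Nat.ble K 13)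

def g3val (c : ℕ) : ℕ := g3aux c (Nat.mod c 256) (slow 3 c)

theorem g3val_eq (c : ℕ) : (g3val c : ZMod 2) = g 3 c := by
  have h : g3val c = g3aux c (c % 256) (slow 3 c) := rfl
  rw [h]
  unfold g3aux
  by_cases hK : c % 256 ≤ 13
  · rw [Nat.ble_eq_true_of_le hK]
    show ((outer c (c % 256) (slow 3 c) (c % 256 + 1) 0 : ℕ) : ZMod 2) = g 3 c
    obtain ⟨e1, e2⟩ := outer_spec c (c % 256) (slow 3 c) (c % 256 + 1) 0
    by_cases hall : ∀ i < c % 256 + 1, i ≤ uu c i ∧ uu c i ≤ tt c i ∧ tt c i ≤ c % 256
    · rw [e1 hall, Nat.zero_add, g_three c ⟨hK, fun i hi => hall i (by omega)⟩]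
    · rw [e2 hall, slow_eq]
  · rw [ble_false hK]
    exact slow_eq 3 c

/-- add `g3val` over the first `2^d` entries of a list -/
def tot (d : ℕ) : List ℕ → ℕ → ℕ × List ℕ :=
  Nat.rec
    (fun l acc => List.rec (acc, []) (fun a t _ => force (Nat.add acc (g3val a)) (fun v => (v, t))) l)
    (fun _ ih l acc => Prod.rec (fun acc1 r1 => ih r1 acc1) (ih l acc)) d

theorem tot_zero_nil (acc : ℕ) : tot 0 [] acc = (acc, []) := rfl

theorem tot_zero_cons (a : ℕ) (t : List ℕ) (acc : ℕ) :
    tot 0 (a :: t) acc = (acc + g3val a, t) := by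
  have h : tot 0 (a :: t) acc = force (Nat.add acc (g3val a)) (fun v => (v, t)) := rfl
  rw [h, force_eq]
  rfl

theorem tot_succ (d : ℕ) (l : List ℕ) (acc : ℕ) :
    tot (d + 1) l acc = tot d (tot d l acc).2 (tot d l acc).1 := rfl

theorem tot_eq (d : ℕ) : ∀ (l : List ℕ) (acc : ℕ),
    ((tot d l acc).1 : ZMod 2) + sumg 3 (tot d l acc).2 = acc + sumg 3 l := by
  induction d with
  | zero =>
    intro l acc
    cases l with
    | nil => rw [tot_zero_nil]
    | cons a t =>
      rw [tot_zero_cons, sumg_cons]
      simp only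
      rw [Nat.cast_add, g3val_eq]
      ring
  | succ d ih =>
    intro l acc
    rw [tot_succ, ih, ih]

def isNil (l : List ℕ) : Bool := List.rec true (fun _ _ _ => false) l

theorem eq_nil_of_isNil (l : List ℕ) (h : isNil l = true) : l = [] := by
  cases l with
  | nil => rfl
  | cons a t => exact absurd h (by simp [isNil])

/-- test that a computed pair is `(v, [])` with `v` of parity `x` -/
def endTest (p : ℕ × List ℕ) (x : ℕ) : Bool :=
  Prod.rec (fun v r => Bool.rec false (isNil r) (Nat.beq (Nat.mod v 2) x)) p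

/-- the kernel check for a list of codes at level nine -/
def Good (l : List ℕ) (x : ℕ) : Prop :=
  endTest (tot 13 (step 13 (step 11 l)) 0) x = true

instance (l : List ℕ) (x : ℕ) : Decidable (Good l x) :=
  inferInstanceAs (Decidable (endTest (tot 13 (step 13 (step 11 l)) 0) x = true))

theorem endTest_spec (p : ℕ × List ℕ) (x : ℕ) (h : endTest p x = true) :
    p.1 % 2 = x ∧ p.2 = [] := by
  obtain ⟨v, r⟩ := p
  have h' : (Bool.rec false (isNil r) (Nat.beq (Nat.mod v 2) x) : Bool) = true := h
  cases e : Nat.beq (Nat.mod v 2) x with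
  | false => rw [e] at h'; exact absurd h' (by simp)
  | true =>
    rw [e] at h'
    exact ⟨Nat.eq_of_beq_eq_true e, eq_nil_of_isNil _ h'⟩

/-- the parity of the number of descendants (after five steps) of a list of codes -/
theorem sumg_of_good (l : List ℕ) (x : ℕ) (h : Good l x) : sumg 5 l = (x : ZMod 2) := by
  obtain ⟨h1, h2⟩ := endTest_spec _ _ h
  have h3 := tot_eq 13 (step 13 (step 11 l)) 0
  rw [h2, sumg_nil, sumg_step, sumg_step, add_zero, Nat.cast_zero, zero_add] at h3
  rw [← h3, ← h1]
  exact (ZMod.natCast_mod _ 2).symm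

/-- compare the first `2^d` entries of two lists -/
def eqt (d : ℕ) : List ℕ → List ℕ → Bool × List ℕ × List ℕ :=
  Nat.rec
    (fun l1 l2 => List.rec (List.rec (true, [], []) (fun _ _ _ => (false, [], [])) l2)
      (fun a t _ => List.rec (false, [], [])
        (fun b t' _ => Bool.rec (false, [], []) (true, t, t') (Nat.beq a b)) l2) l1)
    (fun _ ih l1 l2 => Prod.rec (fun b p => Prod.rec (fun r1 r2 =>
      Bool.rec (false, [], []) (ih r1 r2) b) p) (ih l1 l2)) d

theorem eqt_spec (r d : ℕ) : ∀ (l1 l2 : List ℕ), (eqt d l1 l2).1 = true →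
    sumg r l1 + sumg r (eqt d l1 l2).2.2 = sumg r l2 + sumg r (eqt d l1 l2).2.1 := by
  induction d with
  | zero =>
    intro l1 l2 h
    cases l1 with
    | nil =>
      cases l2 with
      | nil => rfl
      | cons b t' => exact absurd h (by simp [eqt])
    | cons a t =>
      cases l2 with
      | nil => exact absurd h (by simp [eqt])
      | cons b t' =>
        have e : eqt 0 (a :: t) (b :: t')
          = (Bool.rec (false, [], []) (true, t, t') (Nat.beq a b) : Bool × List ℕ × List ℕ) := rfl
        cases hb : Nat.beq a b with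
        | false => rw [e, hb] at h; exact absurd h (by simp)
        | true =>
          rw [e, hb]
          have hab := Nat.eq_of_beq_eq_true hb
          subst hab
          simp only
          rw [sumg_cons, sumg_cons]
          ring
  | succ d ih =>
    intro l1 l2 h
    have e : eqt (d + 1) l1 l2 = (Bool.rec (false, [], [])
      (eqt d (eqt d l1 l2).2.1 (eqt d l1 l2).2.2) (eqt d l1 l2).1 : Bool × List ℕ × List ℕ) := rfl
    cases hb : (eqt d l1 l2).1 with
    | false => rw [e, hb] at h; exact absurd h (by simp)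
    | true =>
      rw [e, hb] at h ⊢
      simp only at h ⊢
      have h1 := ih l1 l2 hb
      have h2 := ih _ _ h
      linear_combination h1 + h2

def endTest2 (p : Bool × List ℕ × List ℕ) : Bool :=
  Prod.rec (fun b q => Prod.rec (fun r1 r2 => Bool.rec false (Bool.rec false (isNil r2) (isNil r1)) b)
    q) p

theorem endTest2_spec (p : Bool × List ℕ × List ℕ) (h : endTest2 p = true) :
    p.1 = true ∧ p.2.1 = [] ∧ p.2.2 = [] := by
  obtain ⟨b, r1, r2⟩ := p
  have h' : (Bool.rec false (Bool.rec false (isNil r2) (isNil r1)) b : Bool) = true := h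
  cases b with
  | false => exact absurd h' (by simp)
  | true =>
    cases e : isNil r1 with
    | false => rw [e] at h'; exact absurd h' (by simp)
    | true =>
      rw [e] at h'
      exact ⟨rfl, eq_nil_of_isNil _ e, eq_nil_of_isNil _ h'⟩

/-- the kernel check for the whole list of codes at level `n` -/
def Agrees (l : List ℕ) (n : ℕ) : Prop := endTest2 (eqt 13 (xsort 13 l) (forward 14 n)) = true

instance (l : List ℕ) (n : ℕ) : Decidable (Agrees l n) :=
  inferInstanceAs (Decidable (endTest2 (eqt 13 (xsort 13 l) (forward 14 n)) = true))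

theorem g_forward_eq (n r m : ℕ) (l : List ℕ) (hm : n + r = m) (h : Agrees l n) :
    g m 0 = sumg r l := by
  obtain ⟨h1, h2, h3⟩ := endTest2_spec _ h
  have h4 := eqt_spec r 13 _ _ h1
  rw [h2, h3, sumg_nil, add_zero, add_zero, sumg_xsort, sumg_forward, hm] at h4
  exact h4.symm

end Pool.Agent.H49.EW
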