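import Pool.Agent.H49.EW.Part1
import Pool.Agent.H49.EW.Part2
import Pool.Agent.H49.EW.Part3
import Pool.Agent.H49.EW.Part4
import Pool.Agent.H49.EW.Part5
import Pool.Agent.H49.EW.Part6
import Pool.Agent.H49.EW.Part7
import Pool.Agent.H49.EW.Part8

/-!
The number of permutations of size 14 avoiding 24135 is odd.
-/

namespace Pool.Agent.H49.EW

/-- the codes of level nine that occur an odd number of times -/
def All : List ℕ :=
    B1 ++ (B2 ++ (B3 ++ (B4 ++ (B5 ++ (B6 ++ (B7 ++ (B8 ++ (B9 ++ (B10 ++ (B11 ++ (B12 ++ (B13 ++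
    (B14 ++ (B15 ++ (B16 ++ (B17 ++ (B18 ++ (B19 ++ (B20 ++ (B21 ++ (B22 ++ (B23 ++ (B24 ++ (B25 ++
    (B26 ++ (B27 ++ (B28 ++ (B29 ++ (B30 ++ (B31 ++ B32))))))))))))))))))))))))))))))

theorem agrees : Agrees All 9 := by
  decide +kernel

theorem sumg_all : sumg 5 All = 1 := by
  unfold All
  rw [sumg_append, sumg_append, sumg_append, sumg_append, sumg_append, sumg_append, sumg_append, sumg_append, sumg_append, sumg_append, sumg_append, sumg_append, sumg_append, sumg_append, sumg_append, sumg_append, sumg_append, sumg_append, sumg_append, sumg_append, sumg_append, sumg_append, sumg_append, sumg_append, sumg_append, sumg_append, sumg_append, sumg_append, sumg_append, sumg_append, sumg_append]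
  rw [sum1, sum2, sum3, sum4, sum5, sum6, sum7, sum8, sum9, sum10, sum11, sum12, sum13, sum14, sum15, sum16, sum17, sum18, sum19, sum20, sum21, sum22, sum23, sum24, sum25, sum26, sum27, sum28, sum29, sum30, sum31, sum32]
  decide

theorem g14 : g 14 0 = 1 := by
  rw [g_forward_eq 9 5 14 All rfl agrees, sumg_all]

theorem A14_odd : A 14 % 2 = 1 := by
  have h : (A 14 : ZMod 2) = 1 := by rw [A14_eq, g14]
  have h2 : ((A 14 : ℕ) : ZMod 2) = ((1 : ℕ) : ZMod 2) := by rw [h]; simp
  have h3 := (ZMod.natCast_eq_natCast_iff' (A 14) 1 2).1 h2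
  simpa using h3

end Pool.Agent.H49.EW
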